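import Pool.Agent.Lib.MP_76b24b_lc.Route3

/-!
# MP_76b24b_lc: circuits with few combining gates

A gate is combining for the shift `k` if its value on the words `2 ^ k y 2 ^ (N - k)` depends on the
payload `y` and is, as a function of `y`, neither the value of one of its two input nodes nor its
negation. Let a circuit compute `f` on the words of length `2 N`, and let `K` be a set of shifts. If
there are at most `3 (N - m)` combining gates on average over `K`, then there are at least
`(m / 2) log (#K m / N)` payload dependent gates on average over `K`. So a circuit of size `c N` has more
than `3 (1 - ε) N` combining gates for all but a constant number of the `N` shifts.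
-/

set_option autoImplicit false

namespace Pool.Agent.Results.MP_76b24b_lc.FewCombiningGates

open Finset Pool.Agent.Lib.MP_76b24b_lc

/-- MAIN RESULT. -/
theorem result {N s : ℕ} (C : Circuit (2 * N) s) (hC : C.Computes) (m : ℕ) (K : Finset (Fin N))
    (hm : (∑ k ∈ K, #(C.combining k)) + 3 * (#K * m) ≤ 3 * (#K * N)) :
    #K * m * Nat.log 2 (#K * m / N) ≤ 2 * ∑ k ∈ K, #(C.payload k) :=
  partIV C hC m K hm

end Pool.Agent.Results.MP_76b24b_lc.FewCombiningGates
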