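import Pool.Agent.Lib.MP_76b24b_lcL.Or
import Pool.Agent.Lib.MP_76b24b_lcL.One
import Pool.Agent.Lib.MP_76b24b_lcL.Add
import Pool.Agent.Lib.MP_76b24b_lcL.Pop
import Pool.Agent.Lib.MP_76b24b_lcL.Pre
import Pool.Agent.Lib.MP_76b24b_lcL.Naive
import Pool.Agent.Lib.MP_76b24b_lcL.Part
import Pool.Agent.Lib.MP_76b24b_lcL.Sort
import Pool.Agent.Lib.MP_76b24b_lcL.Seg
import Pool.Agent.Lib.MP_76b24b_lcL.KeyOr
import Pool.Agent.Lib.MP_76b24b_lcL.Mat
import Pool.Agent.Lib.MP_76b24b_lcL.Exp1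
import Pool.Agent.Lib.MP_76b24b_lcL.Exp2
import Pool.Agent.Lib.MP_76b24b_lcL.Gat
import Pool.Agent.Lib.MP_76b24b_lcL.Sca
import Pool.Agent.Lib.MP_76b24b_lcL.Thr
import Pool.Agent.Lib.MP_76b24b_lcL.BA
import Pool.Agent.Lib.MP_76b24b_lcL.BB
import Pool.Agent.Lib.MP_76b24b_lcL.Back
import Pool.Agent.Lib.MP_76b24b_lcL.Cnt
import Pool.Agent.Lib.MP_76b24b_lcL.Lst
import Pool.Agent.Lib.MP_76b24b_lcL.Chg
import Pool.Agent.Lib.MP_76b24b_lcM.Acc
import Pool.Agent.Lib.MP_76b24b_lcM.Acc1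
import Pool.Agent.Lib.MP_76b24b_lcM.Al
import Pool.Agent.Lib.MP_76b24b_lcM.Bins
import Pool.Agent.Lib.MP_76b24b_lcM.CR
import Pool.Agent.Lib.MP_76b24b_lcM.Coll
import Pool.Agent.Lib.MP_76b24b_lcM.Com
import Pool.Agent.Lib.MP_76b24b_lcM.ComN
import Pool.Agent.Lib.MP_76b24b_lcM.ComS
import Pool.Agent.Lib.MP_76b24b_lcM.Conc
import Pool.Agent.Lib.MP_76b24b_lcM.Dec
import Pool.Agent.Lib.MP_76b24b_lcM.DecN
import Pool.Agent.Lib.MP_76b24b_lcM.DecS
import Pool.Agent.Lib.MP_76b24b_lcM.Final2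
import Pool.Agent.Lib.MP_76b24b_lcM.Half
import Pool.Agent.Lib.MP_76b24b_lcM.In
import Pool.Agent.Lib.MP_76b24b_lcM.LA
import Pool.Agent.Lib.MP_76b24b_lcM.Main
import Pool.Agent.Lib.MP_76b24b_lcM.MainL
import Pool.Agent.Lib.MP_76b24b_lcM.Num
import Pool.Agent.Lib.MP_76b24b_lcM.NvM
import Pool.Agent.Lib.MP_76b24b_lcM.Out
import Pool.Agent.Lib.MP_76b24b_lcM.PreM
import Pool.Agent.Lib.MP_76b24b_lcM.Prof
import Pool.Agent.Lib.MP_76b24b_lcM.Qk
import Pool.Agent.Lib.MP_76b24b_lcM.RkL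
import Pool.Agent.Lib.MP_76b24b_lcM.Rt
import Pool.Agent.Lib.MP_76b24b_lcM.SK
import Pool.Agent.Lib.MP_76b24b_lcM.SpM
import Pool.Agent.Lib.MP_76b24b_lcM.Split
import Pool.Agent.Lib.MP_76b24b_lcM.Sub
import Pool.Agent.Lib.MP_76b24b_lcM.T2
import Pool.Agent.Lib.MP_76b24b_lcM.T3
import Pool.Agent.Lib.MP_76b24b_lcM.Top2

/-!
# MP_76b24b_lc: circuits of size `O(n + m log n log (n / m))` for payloads with `m` alternations

There is a constant `C` such that for all `n`, `m` a circuit with at most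
`C (n + m log n (log (n / m) + 1))` gates computes `f` on all words `x` of length `n` whose
subsequence of letters `0`, `1` has at most `m` alternations (logarithms to the base `2` and the
quotient are rounded down). An alternation is a pair `i < j` with `x i, x j ≠ 2`, `x i ≠ x j` and
`x l = 2` for all `l` between. The circuits have the format of the frozen statement of the problem.
-/

set_option autoImplicit false

namespace Pool.Agent.Results.MP_76b24b_lc.InterpolatingBound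

open Pool.Agent.Lin

theorem result :
    ∃ C : ℕ, ∀ n m : ℕ, ∃ s : ℕ,
      s ≤ C * (n + m * Nat.log 2 n * (Nat.log 2 (n / m) + 1)) ∧
      ∃ (op : Fin s → Bool → Bool → Bool)
        (left right : Fin s → (Fin n × Fin 2) ⊕ Fin s)
        (out : Fin n → Fin 2 → (Fin n × Fin 2) ⊕ Fin s),
        (∀ g h : Fin s, left g = Sum.inr h → h < g) ∧
        (∀ g h : Fin s, right g = Sum.inr h → h < g) ∧
        ∀ (x : Fin n → Fin 3) (v : (Fin n × Fin 2) ⊕ Fin s → Bool),
          (Finset.univ.filter fun p : Fin n × Fin n => p.1 < p.2 ∧ x p.1 ≠ 2 ∧ x p.2 ≠ 2 ∧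
            x p.1 ≠ x p.2 ∧ ∀ l : Fin n, p.1 < l → l < p.2 → x l = 2).card ≤ m →
          (∀ i : Fin n, v (Sum.inl (i, 0)) = decide (x i = 1) ∧
                        v (Sum.inl (i, 1)) = decide (x i = 2)) →
          (∀ g : Fin s, v (Sum.inr g) = op g (v (left g)) (v (right g))) →
          ∀ j : Fin n,
            v (out j 0) = decide ((((List.ofFn x).filter (fun a => a != (2 : Fin 3))) ++
                ((List.ofFn x).filter (fun a => a == (2 : Fin 3)))).getD j.val 0 = 1) ∧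
            v (out j 1) = decide ((((List.ofFn x).filter (fun a => a != (2 : Fin 3))) ++
                ((List.ofFn x).filter (fun a => a == (2 : Fin 3)))).getD j.val 0 = 2) :=
  have hMat : S_Mat := tMat tOr tOne
  have hPop : S_Pop := tPop tAdd
  have hPre : S_Pre := tPre tAdd hPop
  have hSort : S_Sort := tSort (tPart tNaive)
  have hKey : S_KeyOr := tKeyOr tOr hSort tSeg
  have hBack : S_Back := tBack (tBA hMat (tGat tOr)) (tBB hKey) (tSca tOr)
  have hExp : S_Exp := tExp tExp1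
  have hSub : S_Sub := tSub tAdd
  have hCon : S_Con := tCon hMat
  have hHalf : S_Half := tHalf hCon hExp
  have hCR : S_CR := tCR (tColl hHalf) (tRt hHalf)
  have hAcc1 : S_Acc1 := tAcc1 (tAl hHalf tOr) (tQk hSub tAdd) (tSK tThr tAdd)
  have hAcc : S_Acc := tAcc hAcc1 hCR tNvM tRkL
  have hComN : S_ComN := tComN hPre tAdd tNaive
  have hComS : S_ComS := tComS (tBins tOr hPre hCon hSort) hExp hPre tAdd tNaive
  have hDecN : S_DecN := tDecN hKey
  have hDec : S_Dec := tDec hDecN (tDecS hDecN hBack hExp) hPre hSub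
  have hProf : S_Prof := tProf hPre (tSplit tAdd hPop hSub tOr) hSub tAdd tNaive
  have hMain : S_Main := tMain (tIn hAcc hPre tLA) (tOut hAcc tLA) hProf tMainL
  have hT2 : S_T2 := tT2 hMain (tCom hComN hComS) hDec tNum
  have hT3 : S_T3 := tT3 hMain hComN hDec (tPreM tAdd) tNum
  final2 (tTop2 (tSpM hT2 hT3 tNaive) (tCnt hPop tThr) tLst tChg)

end Pool.Agent.Results.MP_76b24b_lc.InterpolatingBound
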