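import Pool.Agent.Lib.MP_76b24b_lcL.Add
import Pool.Agent.Lib.MP_76b24b_lcL.Pop
import Pool.Agent.Lib.MP_76b24b_lcL.Thr
import Pool.Agent.Lib.MP_76b24b_lcL.Naive
import Pool.Agent.Lib.MP_76b24b_lcL.Cnt
import Pool.Agent.Lib.MP_76b24b_lcL.Lst
import Pool.Agent.Lib.MP_76b24b_lcS.Idx
import Pool.Agent.Lib.MP_76b24b_lcS.Trm
import Pool.Agent.Lib.MP_76b24b_lcS.Wrd
import Pool.Agent.Lib.MP_76b24b_lcS.Bat
import Pool.Agent.Lib.MP_76b24b_lcS.PrM
import Pool.Agent.Lib.MP_76b24b_lcS.Cof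
import Pool.Agent.Lib.MP_76b24b_lcS.Pro
import Pool.Agent.Lib.MP_76b24b_lcS.Prd
import Pool.Agent.Lib.MP_76b24b_lcS.Rec
import Pool.Agent.Lib.MP_76b24b_lcS.GF
import Pool.Agent.Lib.MP_76b24b_lcS.Pad
import Pool.Agent.Lib.MP_76b24b_lcS.Exn
import Pool.Agent.Lib.MP_76b24b_lcS.FzA
import Pool.Agent.Lib.MP_76b24b_lcS.FzB
import Pool.Agent.Lib.MP_76b24b_lcS.Inq

/-!
# MP_76b24b_lc: self-reducibility of stable sorting of 0, 1 below 2

Let `F(n)` be the smallest size of a circuit which computes `f` on the words of length `n`. There is a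
constant `C` such that `F(n) / (n log n) ≤ C (F(m) + m) / (m log m)` for all `2 ≤ m ≤ n`.
-/

set_option autoImplicit false

namespace Pool.Agent.Results.MP_76b24b_lc.SelfReducible

/-- A circuit with `s` gates (numbered topologically, each an arbitrary binary operation) computes `f` on
the words of length `n`: the format of the frozen statement. -/
def Computable (n s : ℕ) : Prop :=
  ∃ (op : Fin s → Bool → Bool → Bool)
    (left right : Fin s → (Fin n × Fin 2) ⊕ Fin s)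
    (out : Fin n → Fin 2 → (Fin n × Fin 2) ⊕ Fin s),
    (∀ g h : Fin s, left g = Sum.inr h → h < g) ∧
    (∀ g h : Fin s, right g = Sum.inr h → h < g) ∧
    ∀ (x : Fin n → Fin 3) (v : (Fin n × Fin 2) ⊕ Fin s → Bool),
      (∀ i : Fin n, v (Sum.inl (i, 0)) = decide (x i = 1) ∧
                    v (Sum.inl (i, 1)) = decide (x i = 2)) →
      (∀ g : Fin s, v (Sum.inr g) = op g (v (left g)) (v (right g))) →
      ∀ j : Fin n,
        v (out j 0) = decide ((((List.ofFn x).filter (fun a => a != (2 : Fin 3))) ++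
            ((List.ofFn x).filter (fun a => a == (2 : Fin 3)))).getD j.val 0 = 1) ∧
        v (out j 1) = decide ((((List.ofFn x).filter (fun a => a != (2 : Fin 3))) ++
            ((List.ofFn x).filter (fun a => a == (2 : Fin 3)))).getD j.val 0 = 2)

theorem result :
    ∃ C : ℕ, ∀ m n s : ℕ, 2 ≤ m → m ≤ n → Computable m s →
      ∃ t : ℕ, Computable n t ∧
        t * (m * Nat.log 2 m) ≤ C * (n * Nat.log 2 n) * (s + m) := by
  have hPop := Pool.Agent.Lin.tPop Pool.Agent.Lin.tAdd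
  have hTrm := Pool.Agent.Lin.tTrm Pool.Agent.Lin.tAdd hPop Pool.Agent.Lin.tThr
  have hBat := Pool.Agent.Lin.tBat hTrm Pool.Agent.Lin.tWrd
  have hPrM := Pool.Agent.Lin.tPrM Pool.Agent.Lin.tAdd hPop
  have hCof := Pool.Agent.Lin.tCof Pool.Agent.Lin.tAdd Pool.Agent.Lin.tThr
  have hPrd := Pool.Agent.Lin.tPrd hPrM hCof Pool.Agent.Lin.tPro
  have hRec := Pool.Agent.Lin.tRec Pool.Agent.Lin.tIdx hBat hPrd
  have hExn := Pool.Agent.Lin.tExn Pool.Agent.Lin.tNaive
    (Pool.Agent.Lin.tCnt hPop Pool.Agent.Lin.tThr)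
  obtain ⟨C, hC⟩ := Pool.Agent.Lin.tInq hRec Pool.Agent.Lin.tGF Pool.Agent.Lin.tPad hExn
  refine ⟨C, fun m n s hm hmn hs => ?_⟩
  obtain ⟨T, hT, hle⟩ := hC m n s hm hmn (Pool.Agent.Lin.tFzA Pool.Agent.Lin.tLst m s hs)
  obtain ⟨t, ht, hsol⟩ := Pool.Agent.Lin.tFzB Pool.Agent.Lin.tLst n T hT
  exact ⟨t, hsol, (Nat.mul_le_mul_right _ ht).trans hle⟩

end Pool.Agent.Results.MP_76b24b_lc.SelfReducible
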