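import Pool.Agent.Lib.MP_76b24b_lc.Act

/-!
# MP_76b24b_lc: the switching activity of circuits for the stable sort

Every circuit (arbitrary binary gates, the format of the frozen statement) which computes `f` on the
words of length `2 N` changes at least `(N / 2) log N` gate values, on average over the shifts
`k < N`, while the `N` payload bits of the word `2 ^ k y 2 ^ (N - k)` are flipped one after the other,
in any order, starting from any payload `y` (the case `D = m = N`). If few combining gates depend on
more than `D` payload bits, this holds, with a loss, for walks on which no gate changes more than `D`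
times. So a circuit of size `c N` has, for nearly all shifts, more than `N / (2 ε log N)` combining gates
each of which depends on more than `ε log N` payload bits, for all small `ε > 0`.
-/

set_option autoImplicit false

namespace Pool.Agent.Results.MP_76b24b_lc.SwitchingActivity

open Finset Pool.Agent.Lib.MP_76b24b_lc

/-- MAIN RESULT. -/
theorem result {N s : ℕ} (C : Circuit (2 * N) s) (hC : C.Computes) (D m : ℕ) (hD : 0 < D)
    (K : Finset (Fin N)) (hm : D * (∑ k ∈ K, #(C.wide D k)) + #K * m ≤ #K * N)
    (y : Fin N → Fin N → Bool) :
    ∃ F : Fin N → Finset (Fin N), (∀ k, #(F k) ≤ D * #(C.wide D k)) ∧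
      ∀ π : Fin N → Equiv.Perm (Fin N),
        (∀ k g, C.moves k (F k) (y k) (π k) g ≤ D) ∧
        #K * m * Nat.log 2 (#K * m / N) ≤
          2 * ∑ k ∈ K, ∑ g : Fin s, C.moves k (F k) (y k) (π k) g :=
  partVI C hC D m hD K hm y

end Pool.Agent.Results.MP_76b24b_lc.SwitchingActivity
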